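import Pool.Agent.Lib_helper21.FP.Global

/-!
# Solutions of `x ^ 4 - y ^ 4 = r` (MP_7dc427_nt): solutions which agree on a unitary divisor
-/

set_option autoImplicit false

namespace Pool.Agent.FP

open Finset

theorem upper {r : ℕ} (hr : 0 < r) (I : Finset (ℕ × ℕ)) (hI : ∀ P ∈ I, IsSol r P) (θ : ℝ)
    (hθ : 0 ≤ θ)
    (hw : ∀ P ∈ I, ∀ Q ∈ I, ((Q.1 : ℝ) + Q.2) ≤ ((P.1 : ℝ) + P.2) * Real.exp θ) :
    ∑ p ∈ r.primeFactors, ((∑ P ∈ I, ∑ Q ∈ I, K p (r.factorization p) P Q : ℕ) : ℝ) * Real.log p ≤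
      I.card * Real.log r + (I.card : ℝ) ^ 2 * (Real.log 4 + Real.log r / 2 + θ) := by
  have hL : 0 ≤ Real.log r := Real.log_natCast_nonneg r
  have h4 : 0 < Real.log 4 := Real.log_pos (by norm_num)
  have e1 : ∑ p ∈ r.primeFactors,
      ((∑ P ∈ I, ∑ Q ∈ I, K p (r.factorization p) P Q : ℕ) : ℝ) * Real.log p =
      ∑ P ∈ I, ∑ Q ∈ I, ∑ p ∈ r.primeFactors, (K p (r.factorization p) P Q : ℝ) * Real.log p := by
    have : ∀ p ∈ r.primeFactors,
        ((∑ P ∈ I, ∑ Q ∈ I, K p (r.factorization p) P Q : ℕ) : ℝ) * Real.log p =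
        ∑ P ∈ I, ∑ Q ∈ I, (K p (r.factorization p) P Q : ℝ) * Real.log p := by
      intro p _
      push_cast
      rw [sum_mul]
      exact sum_congr rfl fun P _ => sum_mul _ _ _
    rw [sum_congr rfl this, sum_comm]
    exact sum_congr rfl fun P _ => sum_comm
  rw [e1]
  have e2 : ∀ P ∈ I, ∀ Q ∈ I,
      ∑ p ∈ r.primeFactors, (K p (r.factorization p) P Q : ℝ) * Real.log p ≤
      (if P = Q then Real.log r else 0) + (Real.log 4 + Real.log r / 2 + θ) := by
    intro P hP Q hQ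
    by_cases h : P = Q
    · subst h
      rw [if_pos rfl]
      have := sum_K_diag hr (hI P hP)
      linarith
    · rw [if_neg h, zero_add]
      exact sum_K_off hr (hI P hP) (hI Q hQ) h θ (hw P hP Q hQ) (hw Q hQ P hP)
  calc ∑ P ∈ I, ∑ Q ∈ I, ∑ p ∈ r.primeFactors, (K p (r.factorization p) P Q : ℝ) * Real.log p
      ≤ ∑ P ∈ I, ∑ Q ∈ I, ((if P = Q then Real.log r else 0) +
          (Real.log 4 + Real.log r / 2 + θ)) :=
        sum_le_sum fun P hP => sum_le_sum fun Q hQ => e2 P hP Q hQ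
    _ = I.card * Real.log r + (I.card : ℝ) ^ 2 * (Real.log 4 + Real.log r / 2 + θ) := by
        simp only [sum_add_distrib, sum_const, sum_ite_eq, nsmul_eq_mul]
        rw [← sum_filter, filter_true_of_mem (fun x hx => hx), sum_const, nsmul_eq_mul]
        ring

/-- the exponent of a prime divisor of a unitary divisor -/
theorem unitary_fact {r g p : ℕ} (hr : 0 < r) (hg : g ∣ r) (hu : Nat.Coprime g (r / g))
    (hp : p.Prime) (hpg : p ∣ g) : r.factorization p = g.factorization p := by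
  obtain ⟨c, rfl⟩ := hg
  have hg0 : 0 < g := Nat.pos_of_mul_pos_right hr
  have hc0 : 0 < c := Nat.pos_of_mul_pos_left hr
  rw [Nat.mul_div_cancel_left _ hg0] at hu
  rw [Nat.factorization_mul hg0.ne' hc0.ne', Finsupp.add_apply]
  have : ¬ p ∣ c := fun h => by
    have := Nat.dvd_gcd hpg h
    rw [hu] at this
    exact hp.one_lt.ne' (Nat.dvd_one.mp this)
  rw [Nat.factorization_eq_zero_of_not_dvd this, add_zero]

theorem log_unitary {r g : ℕ} (hr : 0 < r) (hg : g ∣ r) (hu : Nat.Coprime g (r / g)) :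
    Real.log g = ∑ p ∈ r.primeFactors,
      (if p ∣ g then (r.factorization p : ℝ) * Real.log p else 0) := by
  have hg0 : g ≠ 0 := by rintro rfl; rw [Nat.zero_dvd] at hg; omega
  rw [log_eq_sum hg0, ← sum_filter]
  have : r.primeFactors.filter (fun p => p ∣ g) = g.primeFactors := by
    ext p
    rw [mem_filter, Nat.mem_primeFactors, Nat.mem_primeFactors]
    constructor
    · rintro ⟨⟨h1, h2, h3⟩, h4⟩; exact ⟨h1, h4, hg0⟩
    · rintro ⟨h1, h2, h3⟩; exact ⟨⟨h1, h2.trans hg, hr.ne'⟩, h2⟩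
  rw [this]
  refine sum_congr rfl fun p hp => ?_
  rw [unitary_fact hr hg hu (Nat.prime_of_mem_primeFactors hp) (Nat.dvd_of_mem_primeFactors hp)]

/-- hypotheses on the unitary divisors -/
structure Hyp (r g q : ℕ) : Prop where
  hr : 0 < r
  hg : g ∣ r
  hgu : Nat.Coprime g (r / g)
  hq : q ∣ r
  hqu : Nat.Coprime q (r / q)
  hgq : Nat.Coprime g q
  q3 : ∀ p : ℕ, p.Prime → p ∣ q → p % 4 = 3

theorem jv_zero {p n : ℕ} (hp : p.Prime) (hpn : p ∣ n) {P : ℕ × ℕ}
    (h : Nat.Coprime (Nat.gcd P.1 P.2) n) : jv p P = 0 := by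
  unfold jv
  apply Nat.factorization_eq_zero_of_not_dvd
  intro hd
  have := Nat.dvd_gcd hd hpn
  rw [h] at this
  exact hp.one_lt.ne' (Nat.dvd_one.mp this)

theorem clique {r g q : ℕ} (H : Hyp r g q) (I : Finset (ℕ × ℕ)) (hI : ∀ P ∈ I, IsSol r P)
    (hcop : ∀ P ∈ I, Nat.Coprime (Nat.gcd P.1 P.2) (g * q))
    (hcol : ∀ p ∈ g.primeFactors, ∀ P ∈ I, ∀ Q ∈ I, col p P = col p Q) (θ : ℝ) (hθ : 0 ≤ θ)
    (hw : ∀ P ∈ I, ∀ Q ∈ I, ((Q.1 : ℝ) + Q.2) ≤ ((P.1 : ℝ) + P.2) * Real.exp θ) :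
    (I.card : ℝ) ^ 2 * (Real.log r + 3 * Real.log g + Real.log q) ≤
      4 * (I.card * Real.log r + (I.card : ℝ) ^ 2 * (Real.log 4 + Real.log r / 2 + θ)) := by
  have hr := H.hr
  refine le_trans ?_ (mul_le_mul_of_nonneg_left (upper hr I hI θ hθ hw) (by norm_num))
  rw [log_unitary hr H.hg H.hgu, log_unitary hr H.hq H.hqu]
  have hL := log_eq_sum hr.ne'
  rw [hL, mul_sum _ _ (3 : ℝ), ← sum_add_distrib, ← sum_add_distrib]
  rw [mul_sum, mul_sum]
  refine sum_le_sum fun p hp => ?_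
  have hp' := Nat.prime_of_mem_primeFactors hp
  have hpr := Nat.dvd_of_mem_primeFactors hp
  have hl : (0 : ℝ) ≤ Real.log p := Real.log_natCast_nonneg p
  have he0 : 0 < r.factorization p := hp'.factorization_pos_of_dvd hr.ne' hpr
  set e := r.factorization p with he
  set S := ∑ P ∈ I, ∑ Q ∈ I, K p e P Q with hS
  have key : ((I.card : ℝ) ^ 2 * ((e : ℝ) + 3 * (if p ∣ g then (e : ℝ) else 0) +
      (if p ∣ q then (e : ℝ) else 0))) ≤ 4 * (S : ℝ) := by
    by_cases hg : p ∣ g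
    · have hq : ¬ p ∣ q := fun h => by
        have := Nat.dvd_gcd hg h
        rw [H.hgq] at this
        exact hp'.one_lt.ne' (Nat.dvd_one.mp this)
      rw [if_pos hg, if_neg hq]
      have h1 := low_eq (r := r) I (fun P hP => jv_zero hp' (hg.mul_right q) (hcop P hP))
        (hcol p (Nat.mem_primeFactors.mpr ⟨hp', hg, by
          rintro rfl; have := H.hg; rw [Nat.zero_dvd] at this; omega⟩))
      have h2 : ((e : ℝ) * (I.card : ℝ) ^ 2) ≤ (S : ℝ) := by exact_mod_cast h1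
      linarith
    · rw [if_neg hg]
      by_cases hq : p ∣ q
      · rw [if_pos hq]
        have h1 := low_three hr hp' (H.q3 p hp' hq) he0 I hI
          (fun P hP => jv_zero hp' (hq.mul_left g) (hcop P hP))
        have h2 : ((e : ℝ) * (I.card : ℝ) ^ 2) ≤ 2 * (S : ℝ) := by exact_mod_cast h1
        linarith
      · rw [if_neg hq]
        have h1 := low_gen hr hp' I hI
        have h2 : ((e : ℝ) * (I.card : ℝ) ^ 2) ≤ 4 * (S : ℝ) := by exact_mod_cast h1
        linarith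
  calc (I.card : ℝ) ^ 2 * ((e : ℝ) * Real.log p + 3 * (if p ∣ g then (e : ℝ) * Real.log p else 0) +
        (if p ∣ q then (e : ℝ) * Real.log p else 0))
      = ((I.card : ℝ) ^ 2 * ((e : ℝ) + 3 * (if p ∣ g then (e : ℝ) else 0) +
        (if p ∣ q then (e : ℝ) else 0))) * Real.log p := by
        split_ifs <;> ring
    _ ≤ (4 * (S : ℝ)) * Real.log p := mul_le_mul_of_nonneg_right key hl
    _ = 4 * ((S : ℝ) * Real.log p) := by ring

end Pool.Agent.FP
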