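import Pool.Agent.Lib_helper21.FP.Clique

/-!
# Solutions of `x ^ 4 - y ^ 4 = r` (MP_7dc427_nt): the count
-/

set_option autoImplicit false

namespace Pool.Agent.FP

open Finset

/-- the class of the size -/
noncomputable def cls (η : ℝ) (P : ℕ × ℕ) : ℕ := ⌊Real.log ((P.1 : ℝ) + P.2) / η⌋₊

theorem cls_near {η : ℝ} (hη : 0 < η) {P Q : ℕ × ℕ} (hP : 0 < P.1) (hQ : 0 < Q.1)
    (h : cls η P = cls η Q) : ((Q.1 : ℝ) + Q.2) ≤ ((P.1 : ℝ) + P.2) * Real.exp η := by
  have hP' : (1 : ℝ) ≤ P.1 := by exact_mod_cast hP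
  have hQ' : (1 : ℝ) ≤ Q.1 := by exact_mod_cast hQ
  have hP2 : (0 : ℝ) ≤ P.2 := Nat.cast_nonneg _
  have hQ2 : (0 : ℝ) ≤ Q.2 := Nat.cast_nonneg _
  have hsP : 0 < (P.1 : ℝ) + P.2 := by linarith
  have hsQ : 0 < (Q.1 : ℝ) + Q.2 := by linarith
  have hl : 0 ≤ Real.log ((P.1 : ℝ) + P.2) / η := div_nonneg (Real.log_nonneg (by linarith)) hη.le
  have h1 : Real.log ((Q.1 : ℝ) + Q.2) / η < cls η Q + 1 := Nat.lt_floor_add_one _
  have h2 : (cls η P : ℝ) ≤ Real.log ((P.1 : ℝ) + P.2) / η := Nat.floor_le hl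
  rw [← h] at h1
  have h3 : Real.log ((Q.1 : ℝ) + Q.2) / η < Real.log ((P.1 : ℝ) + P.2) / η + 1 := by linarith
  have h4 : Real.log ((Q.1 : ℝ) + Q.2) < Real.log ((P.1 : ℝ) + P.2) + η := by
    have : Real.log ((P.1 : ℝ) + P.2) / η + 1 = (Real.log ((P.1 : ℝ) + P.2) + η) / η := by
      field_simp
    rw [this] at h3
    exact (div_lt_div_iff_of_pos_right hη).mp h3
  calc ((Q.1 : ℝ) + Q.2) = Real.exp (Real.log ((Q.1 : ℝ) + Q.2)) := (Real.exp_log hsQ).symm
    _ ≤ Real.exp (Real.log ((P.1 : ℝ) + P.2) + η) := Real.exp_le_exp.mpr h4.le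
    _ = ((P.1 : ℝ) + P.2) * Real.exp η := by rw [Real.exp_add, Real.exp_log hsP]

theorem sol_size {r : ℕ} (hr : 0 < r) {P : ℕ × ℕ} (hP : IsSol r P) :
    ((P.1 : ℝ) + P.2) ≤ 2 * Real.sqrt r := by
  obtain ⟨h1, h2⟩ := size_one hr hP
  have hlt : P.2 < P.1 := by
    by_contra hc
    have h3 := hP.2.2
    have : P.1 ^ 4 ≤ P.2 ^ 4 := Nat.pow_le_pow_left (not_lt.mp hc) 4
    omega
  have h4 : (P.2 : ℝ) + 1 ≤ P.1 := by exact_mod_cast hlt
  have h5 : (0 : ℝ) ≤ P.2 := Nat.cast_nonneg _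
  nlinarith

theorem fibre {ε : ℝ} (hε : 0 < ε) {r g q : ℕ} (H : Hyp r g q)
    (hbig : 12 * Real.log 4 < ε * Real.log r)
    (hgq : (1 + ε) * Real.log r ≤ 3 * Real.log g + Real.log q)
    (I : Finset (ℕ × ℕ)) (hI : ∀ P ∈ I, IsSol r P)
    (hcop : ∀ P ∈ I, Nat.Coprime (Nat.gcd P.1 P.2) (g * q))
    (hcol : ∀ p ∈ g.primeFactors, ∀ P ∈ I, ∀ Q ∈ I, col p P = col p Q)
    (hcls : ∀ P ∈ I, ∀ Q ∈ I, cls (ε / 12 * Real.log r) P = cls (ε / 12 * Real.log r) Q) :
    (I.card : ℝ) ≤ 12 / ε := by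
  have hl4 : 0 < Real.log 4 := Real.log_pos (by norm_num)
  have hL : 0 < Real.log r := by
    by_contra hc
    have : ε * Real.log r ≤ 0 := mul_nonpos_of_nonneg_of_nonpos hε.le (not_lt.mp hc)
    linarith
  have hη : 0 < ε / 12 * Real.log r := by positivity
  have h := clique H I hI hcop hcol (ε / 12 * Real.log r) hη.le
    (fun P hP Q hQ => cls_near hη (hI P hP).1 (hI Q hQ).1 (hcls P hP Q hQ))
  set m : ℝ := (I.card : ℝ) with hm
  set L := Real.log r
  have hm0 : 0 ≤ m := Nat.cast_nonneg _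
  rw [le_div_iff₀ hε]
  rcases hm0.eq_or_lt with h0 | h0
  · rw [← h0, zero_mul]; norm_num
  have h1 : m ^ 2 * ((2 + ε) * L) ≤ m ^ 2 * (L + 3 * Real.log g + Real.log q) := by
    apply mul_le_mul_of_nonneg_left _ (by positivity)
    linarith
  have h2 : m ^ 2 * ((2 + ε) * L) ≤
      4 * (m * L + m ^ 2 * (Real.log 4 + L / 2 + ε / 12 * L)) := h1.trans h
  have h3 : m ^ 2 * (4 * Real.log 4) ≤ m ^ 2 * (ε * L / 3) := by
    apply mul_le_mul_of_nonneg_left _ (by positivity)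
    linarith
  have h4 : m * (m * ε * L) ≤ m * (12 * L) := by nlinarith
  have h5 : m * ε * L ≤ 12 * L := le_of_mul_le_mul_left h4 h0
  exact le_of_mul_le_mul_right h5 hL

theorem prod_RR (s : Finset ℕ) (hs : ∀ p ∈ s, p.Prime) :
    ∏ p ∈ s, (RR p).card ≤ 2 * ∏ p ∈ s, Nat.gcd 4 (p - 1) := by
  have h1 : ∀ p ∈ s, (RR p).card ≤ (if p = 2 then 2 else 1) * Nat.gcd 4 (p - 1) := by
    intro p hp
    have hp' := hs p hp
    by_cases h2 : p = 2
    · subst h2; decide
    rw [if_neg h2, one_mul]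
    have hodd : p % 2 = 1 := by
      rcases hp'.eq_two_or_odd with h | h
      · exact absurd h h2
      · exact h
    have h4 : p % 4 = 1 ∨ p % 4 = 3 := by omega
    rcases h4 with h4 | h4
    · have : 4 ∣ p - 1 := by omega
      rw [Nat.gcd_eq_left this]
      exact card_RR hp'
    · refine (card_RR_three hp' h4).trans ?_
      apply Nat.le_of_dvd (Nat.gcd_pos_of_pos_left _ (by norm_num))
      exact Nat.dvd_gcd (by norm_num) (by omega)
  refine (prod_le_prod' h1).trans ?_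
  rw [prod_mul_distrib]
  apply Nat.mul_le_mul_right
  rw [prod_ite_eq' s 2 (fun _ => 2)]
  split_ifs <;> norm_num

theorem main_count {ε : ℝ} (hε : 0 < ε) (hε1 : ε ≤ 1) {r g q : ℕ} (H : Hyp r g q)
    (hbig : 12 * Real.log 4 < ε * Real.log r)
    (hgq : (1 + ε) * Real.log r ≤ 3 * Real.log g + Real.log q)
    (S : Finset (ℕ × ℕ)) (hS : ∀ P ∈ S, IsSol r P)
    (hcop : ∀ P ∈ S, Nat.Coprime (Nat.gcd P.1 P.2) (g * q)) :
    S.card ≤ ⌊12 / ε⌋₊ * (2 * (∏ p ∈ g.primeFactors, Nat.gcd 4 (p - 1)) * (⌊12 / ε⌋₊ + 1)) := by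
  classical
  have hr := H.hr
  have hg0 : g ≠ 0 := by
    rintro rfl
    have := H.hg
    rw [Nat.zero_dvd] at this
    omega
  have hl4 : 0 < Real.log 4 := Real.log_pos (by norm_num)
  have hL : 12 * Real.log 4 < Real.log r := by
    have h0 : 0 < Real.log r := by
      by_contra hc
      have : ε * Real.log r ≤ 0 := mul_nonpos_of_nonneg_of_nonpos hε.le (not_lt.mp hc)
      linarith
    nlinarith
  have hη : 0 < ε / 12 * Real.log r := by
    have : 0 < Real.log r := by linarith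
    positivity
  set η := ε / 12 * Real.log r with hηd
  set T : Finset ((∀ p ∈ g.primeFactors, ℕ) × ℕ) :=
    (g.primeFactors.pi RR) ×ˢ range (⌊12 / ε⌋₊ + 1) with hT
  set f : ℕ × ℕ → (∀ p ∈ g.primeFactors, ℕ) × ℕ := fun P => (fun p _ => col p P, cls η P) with hf
  have hmap : ∀ P ∈ S, f P ∈ T := by
    intro P hP
    rw [hT, mem_product, mem_pi, mem_range]
    refine ⟨fun p hp => ?_, ?_⟩
    · have hp' := Nat.prime_of_mem_primeFactors hp
      have hpg := Nat.dvd_of_mem_primeFactors hp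
      have hj := jv_zero hp' (hpg.mul_right q) (hcop P hP)
      refine col_mem hr hp' (hS P hP) ?_
      rw [hj, mul_zero]
      exact hp'.factorization_pos_of_dvd hr.ne' (hpg.trans H.hg)
    · rw [Nat.lt_succ_iff]
      show ⌊Real.log ((P.1 : ℝ) + P.2) / η⌋₊ ≤ ⌊12 / ε⌋₊
      apply Nat.floor_mono
      rw [div_le_iff₀ hη, hηd]
      have h1 : 12 / ε * (ε / 12 * Real.log r) = Real.log r := by field_simp
      rw [h1]
      have hx := (hS P hP).1
      have hx' : (1 : ℝ) ≤ P.1 := by exact_mod_cast hx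
      have hy' : (0 : ℝ) ≤ P.2 := Nat.cast_nonneg _
      apply Real.log_le_log (by linarith)
      refine (sol_size hr (hS P hP)).trans ?_
      have hr' : (0 : ℝ) < r := by exact_mod_cast hr
      have h4 : (4 : ℝ) ≤ r := by
        have : Real.log 4 ≤ Real.log r := by linarith
        exact (Real.log_le_log_iff (by norm_num) hr').mp this
      have h5 : 2 ≤ Real.sqrt r := by
        rw [Real.le_sqrt' (by norm_num)]
        linarith
      have h6 : Real.sqrt r * Real.sqrt r = r := Real.mul_self_sqrt hr'.le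
      nlinarith
  have hfib : ∀ b ∈ T, (S.filter (fun P => f P = b)).card ≤ ⌊12 / ε⌋₊ := by
    intro b _
    apply Nat.le_floor
    apply fibre hε H hbig hgq
    · intro P hP
      exact hS P (mem_filter.mp hP).1
    · intro P hP
      exact hcop P (mem_filter.mp hP).1
    · intro p hp P hP Q hQ
      have h1 : f P = f Q := ((mem_filter.mp hP).2).trans ((mem_filter.mp hQ).2).symm
      exact congrFun (congrFun (congrArg Prod.fst h1) p) hp
    · intro P hP Q hQ
      have h1 : f P = f Q := ((mem_filter.mp hP).2).trans ((mem_filter.mp hQ).2).symm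
      exact congrArg Prod.snd h1
  have h := card_le_mul_card_image_of_maps_to hmap _ hfib
  refine h.trans ?_
  apply Nat.mul_le_mul_left
  rw [hT, card_product, card_pi, card_range]
  exact Nat.mul_le_mul_right _ (prod_RR _ fun p hp => Nat.prime_of_mem_primeFactors hp)

end Pool.Agent.FP
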