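import Mathlib

/-!
# A counting inequality for colours and exponents (MP_7dc427_nt)
-/

set_option autoImplicit false

namespace Pool.Agent.FP

open Finset

variable {ι : Type}

theorem layer_cs (A : Finset ι) (c : ι → ℕ) (R : Finset ℕ) (q : ℕ) (hR : R.card ≤ q)
    (hc : ∀ i ∈ A, c i ∈ R) :
    A.card ^ 2 ≤ q * ∑ i ∈ A, ∑ k ∈ A, (if c i = c k then 1 else 0) := by
  have h1 : A.card = ∑ x ∈ R, (A.filter (fun i => c i = x)).card :=
    card_eq_sum_card_fiberwise (fun i hi => hc i hi)
  have h2 : ∑ i ∈ A, ∑ k ∈ A, (if c i = c k then 1 else 0) =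
      ∑ x ∈ R, (A.filter (fun i => c i = x)).card ^ 2 := by
    rw [← sum_fiberwise_of_maps_to (fun i hi => hc i hi)]
    refine sum_congr rfl fun x _ => ?_
    have h3 : ∀ i ∈ A.filter (fun i => c i = x), ∑ k ∈ A, (if c i = c k then 1 else 0) =
        (A.filter (fun i => c i = x)).card := by
      intro i hi
      rw [mem_filter] at hi
      rw [card_filter]
      refine sum_congr rfl fun k _ => ?_
      rw [hi.2]
      by_cases h : c k = x
      · rw [if_pos h, if_pos h.symm]
      · rw [if_neg h, if_neg (fun h' => h h'.symm)]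
    rw [sum_congr rfl h3, sum_const, smul_eq_mul, sq]
  rw [h2]
  calc A.card ^ 2 = (∑ x ∈ R, (A.filter (fun i => c i = x)).card) ^ 2 := by rw [← h1]
    _ ≤ R.card * ∑ x ∈ R, (A.filter (fun i => c i = x)).card ^ 2 := sq_sum_le_card_mul_sum_sq
    _ ≤ q * ∑ x ∈ R, (A.filter (fun i => c i = x)).card ^ 2 := Nat.mul_le_mul_right _ hR

theorem layer_min (e a b : ℕ) (ha : a ≤ e) :
    min a b = ∑ t ∈ range e, (if t < a ∧ t < b then 1 else 0) := by
  rw [← card_filter]
  have : (range e).filter (fun t => t < a ∧ t < b) = range (min a b) := by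
    ext t
    simp only [mem_filter, mem_range, lt_min_iff]
    constructor
    · rintro ⟨_, h⟩; exact h
    · intro h; exact ⟨lt_of_lt_of_le h.1 ha, h⟩
  rw [this, card_range]

/-- four colours -/
theorem layer_four (I : Finset ι) (j c : ι → ℕ) (e : ℕ) (R : Finset ℕ) (hR : R.card ≤ 4)
    (hj : ∀ i ∈ I, 4 * j i ≤ e) (hc : ∀ i ∈ I, 4 * j i < e → c i ∈ R) :
    e * I.card ^ 2 ≤ 4 * ∑ i ∈ I, ∑ k ∈ I,
      (j i + j k + if c i = c k then min (e - 4 * j i) (e - 4 * j k) else 0) := by
  set m := I.card with hm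
  set n : ℕ → ℕ := fun t => (I.filter (fun i => t < e - 4 * j i)).card with hn
  have h1 : ∑ i ∈ I, ∑ k ∈ I,
      (j i + j k + if c i = c k then min (e - 4 * j i) (e - 4 * j k) else 0) =
      2 * m * ∑ i ∈ I, j i + ∑ t ∈ range e, ∑ i ∈ I, ∑ k ∈ I,
        (if c i = c k then (if t < e - 4 * j i ∧ t < e - 4 * j k then 1 else 0) else 0) := by
    have h2 : ∀ i ∈ I, ∀ k ∈ I,
        (j i + j k + if c i = c k then min (e - 4 * j i) (e - 4 * j k) else 0) =
        (j i + j k) + ∑ t ∈ range e,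
          (if c i = c k then (if t < e - 4 * j i ∧ t < e - 4 * j k then 1 else 0) else 0) := by
      intro i _ k _
      congr 1
      by_cases h : c i = c k
      · simp only [h, if_true]
        exact layer_min e _ _ (Nat.sub_le _ _)
      · simp [h]
    rw [sum_congr rfl (fun i hi => sum_congr rfl (h2 i hi))]
    simp only [sum_add_distrib, sum_const, smul_eq_mul]
    have h3 : ∑ x ∈ I, ∑ x_1 ∈ I, ∑ x_2 ∈ range e,
        (if c x = c x_1 then (if x_2 < e - 4 * j x ∧ x_2 < e - 4 * j x_1 then 1 else 0) else 0) =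
        ∑ t ∈ range e, ∑ i ∈ I, ∑ k ∈ I,
        (if c i = c k then (if t < e - 4 * j i ∧ t < e - 4 * j k then 1 else 0) else 0) := by
      rw [sum_congr rfl (fun i _ => sum_comm)]
      rw [sum_comm]
    rw [h3, ← mul_sum, ← hm]
    ring
  have h4 : ∀ t, n t ^ 2 ≤ 4 * ∑ i ∈ I, ∑ k ∈ I,
      (if c i = c k then (if t < e - 4 * j i ∧ t < e - 4 * j k then 1 else 0) else 0) := by
    intro t
    have h5 := layer_cs (I.filter (fun i => t < e - 4 * j i)) c R 4 hR (fun i hi => by
      rw [mem_filter] at hi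
      exact hc i hi.1 (by omega))
    refine h5.trans (le_of_eq ?_)
    congr 1
    rw [sum_filter]
    refine sum_congr rfl fun i _ => ?_
    by_cases hi : t < e - 4 * j i
    · rw [if_pos hi, sum_filter]
      refine sum_congr rfl fun k _ => ?_
      by_cases hk : t < e - 4 * j k
      · simp [hi, hk]
      · simp [hk]
    · rw [if_neg hi]
      symm
      apply sum_eq_zero
      intro k _
      simp [hi]
  have h6 : ∑ t ∈ range e, n t + 4 * ∑ i ∈ I, j i = m * e := by
    have h7 : ∑ t ∈ range e, n t = ∑ i ∈ I, (e - 4 * j i) := by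
      have : ∀ t ∈ range e, n t = ∑ i ∈ I, (if t < e - 4 * j i then 1 else 0) := by
        intro t _
        rw [hn]
        simp only [card_filter]
      rw [sum_congr rfl this, sum_comm]
      refine sum_congr rfl fun i _ => ?_
      rw [← card_filter]
      have : (range e).filter (fun t => t < e - 4 * j i) = range (e - 4 * j i) := by
        ext t
        simp only [mem_filter, mem_range]
        omega
      rw [this, card_range]
    rw [h7, mul_sum, ← sum_add_distrib]
    rw [sum_congr rfl (fun i hi => by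
      have := hj i hi
      show e - 4 * j i + 4 * j i = e
      omega), sum_const, smul_eq_mul]
  have h8 : ∑ t ∈ range e, n t ^ 2 ≤ 4 * ∑ t ∈ range e, ∑ i ∈ I, ∑ k ∈ I,
        (if c i = c k then (if t < e - 4 * j i ∧ t < e - 4 * j k then 1 else 0) else 0) := by
    rw [mul_sum]
    exact sum_le_sum fun t _ => h4 t
  rw [h1]
  set T := ∑ t ∈ range e, ∑ i ∈ I, ∑ k ∈ I,
        (if c i = c k then (if t < e - 4 * j i ∧ t < e - 4 * j k then 1 else 0) else 0)
  set J := ∑ i ∈ I, j i
  -- now integers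
  have h9 : ((e : ℤ) * m ^ 2) ≤ ∑ t ∈ range e, ((m : ℤ) ^ 2 + ((m : ℤ) - n t) ^ 2) := by
    have : ((e : ℤ) * m ^ 2) = ∑ t ∈ range e, ((m : ℤ) ^ 2) := by
      rw [sum_const, card_range, nsmul_eq_mul]
    rw [this]
    exact sum_le_sum fun t _ => by nlinarith [sq_nonneg ((m : ℤ) - n t)]
  have h10 : ∑ t ∈ range e, ((m : ℤ) ^ 2 + ((m : ℤ) - n t) ^ 2) =
      2 * (e : ℤ) * m ^ 2 - 2 * m * ∑ t ∈ range e, (n t : ℤ) + ∑ t ∈ range e, (n t : ℤ) ^ 2 := by
    have : ∀ t ∈ range e, ((m : ℤ) ^ 2 + ((m : ℤ) - n t) ^ 2) =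
        2 * (m : ℤ) ^ 2 - 2 * m * n t + (n t : ℤ) ^ 2 := by intro t _; ring
    rw [sum_congr rfl this, sum_add_distrib, sum_sub_distrib, sum_const, card_range,
      nsmul_eq_mul, mul_sum]
    ring
  have h6' : ∑ t ∈ range e, (n t : ℤ) + 4 * (J : ℤ) = m * e := by exact_mod_cast h6
  have h8' : ∑ t ∈ range e, (n t : ℤ) ^ 2 ≤ 4 * (T : ℤ) := by exact_mod_cast h8
  have goal : ((e : ℤ) * m ^ 2) ≤ 4 * (2 * m * J + T) := by
    rw [h10] at h9
    have h11 : ∑ t ∈ range e, (n t : ℤ) = m * e - 4 * J := by linarith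
    rw [h11] at h9
    nlinarith
  exact_mod_cast goal

end Pool.Agent.FP
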