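import Pool.Agent.Lib_helper21.FP.Local
import Pool.Agent.Lib_helper21.FP.Layer

/-!
# Solutions of `x ^ 4 - y ^ 4 = r` (MP_7dc427_nt): global part
-/

set_option autoImplicit false

namespace Pool.Agent.FP

open Finset

theorem log_eq_sum {n : ℕ} (hn : n ≠ 0) :
    Real.log n = ∑ p ∈ n.primeFactors, (n.factorization p : ℝ) * Real.log p := by
  conv_lhs => rw [← Nat.prod_factorization_pow_eq_self hn]
  rw [Finsupp.prod, Nat.support_factorization]
  push_cast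
  rw [Real.log_prod]
  · exact sum_congr rfl fun p _ => Real.log_pow _ _
  · intro p hp
    have : (p : ℝ) ≠ 0 := by exact_mod_cast (Nat.prime_of_mem_primeFactors hp).ne_zero
    exact pow_ne_zero _ this

theorem sum_K_le {r : ℕ} (hr : 0 < r) {P Q : ℕ × ℕ} (hP : IsSol r P) (hQ : IsSol r Q)
    (hne : P ≠ Q) : ∑ p ∈ r.primeFactors, (K p (r.factorization p) P Q : ℝ) * Real.log p ≤
      Real.log (4 * |(dt P Q : ℝ)|) := by
  have h1 : (∏ p ∈ r.primeFactors, (p : ℤ) ^ K p (r.factorization p) P Q) ∣ 4 * dt P Q := by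
    apply Finset.prod_dvd_of_coprime
    · intro p hp q hq hpq
      have hp' := Nat.prime_of_mem_primeFactors (mem_coe.mp hp)
      have hq' := Nat.prime_of_mem_primeFactors (mem_coe.mp hq)
      exact (Nat.isCoprime_iff_coprime.mpr ((Nat.coprime_primes hp' hq').mpr hpq)).pow
    · intro p hp
      exact K_dvd hr (Nat.prime_of_mem_primeFactors hp) hP hQ
  have hne0 : 4 * dt P Q ≠ 0 := mul_ne_zero (by norm_num) (dt_ne hr hP hQ hne)
  have h2 : (∏ p ∈ r.primeFactors, (p : ℤ) ^ K p (r.factorization p) P Q) ≤ |4 * dt P Q| :=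
    Int.le_of_dvd (abs_pos.mpr hne0) ((dvd_abs _ _).mpr h1)
  have h3 : (∏ p ∈ r.primeFactors, (p : ℝ) ^ K p (r.factorization p) P Q) ≤ 4 * |(dt P Q : ℝ)| := by
    have : ((∏ p ∈ r.primeFactors, (p : ℤ) ^ K p (r.factorization p) P Q : ℤ) : ℝ) ≤
        ((|4 * dt P Q| : ℤ) : ℝ) := by exact_mod_cast h2
    push_cast at this
    rw [abs_mul] at this
    simpa using this
  have h4 : ∑ p ∈ r.primeFactors, (K p (r.factorization p) P Q : ℝ) * Real.log p =
      Real.log (∏ p ∈ r.primeFactors, (p : ℝ) ^ K p (r.factorization p) P Q) := by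
    rw [Real.log_prod]
    · exact sum_congr rfl fun p _ => (Real.log_pow _ _).symm
    · intro p hp
      have : (p : ℝ) ≠ 0 := by exact_mod_cast (Nat.prime_of_mem_primeFactors hp).ne_zero
      exact pow_ne_zero _ this
  rw [h4]
  apply Real.log_le_log _ h3
  apply prod_pos
  intro p hp
  have : (0 : ℝ) < p := by exact_mod_cast (Nat.prime_of_mem_primeFactors hp).pos
  positivity

/-- the diagonal terms -/
theorem sum_K_diag {r : ℕ} (hr : 0 < r) {P : ℕ × ℕ} (hP : IsSol r P) :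
    ∑ p ∈ r.primeFactors, (K p (r.factorization p) P P : ℝ) * Real.log p ≤ Real.log r := by
  rw [log_eq_sum hr.ne']
  refine sum_le_sum fun p hp => ?_
  have hp' := Nat.prime_of_mem_primeFactors hp
  have h4 := four_jv_le hr hp' hP
  have h5 : K p (r.factorization p) P P ≤ r.factorization p := by
    unfold K
    rw [if_pos rfl]
    omega
  have h6 : (0 : ℝ) ≤ Real.log p := Real.log_natCast_nonneg p
  exact mul_le_mul_of_nonneg_right (by exact_mod_cast h5) h6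

/-- size of `(x - y) (x + y)` -/
theorem size_one {r : ℕ} (hr : 0 < r) {P : ℕ × ℕ} (hP : IsSol r P) :
    0 ≤ ((P.1 : ℝ) - P.2) ∧ ((P.1 : ℝ) - P.2) * ((P.1 : ℝ) + P.2) ≤ 2 * Real.sqrt r := by
  obtain ⟨hx, hy, h⟩ := hP
  have hR : (P.1 : ℝ) ^ 4 = (P.2 : ℝ) ^ 4 + r := by exact_mod_cast h
  have hx' : (0 : ℝ) < P.1 := by exact_mod_cast hx
  have hy' : (0 : ℝ) < P.2 := by exact_mod_cast hy
  have hr' : (0 : ℝ) < r := by exact_mod_cast hr
  set x : ℝ := (P.1 : ℝ)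
  set y : ℝ := (P.2 : ℝ)
  have hxy : y < x := by
    by_contra hc
    have : x ^ 4 ≤ y ^ 4 := pow_le_pow_left₀ hx'.le (not_lt.mp hc) 4
    linarith
  refine ⟨by linarith, ?_⟩
  have hs : Real.sqrt r ^ 2 = r := Real.sq_sqrt hr'.le
  have hs0 : 0 < Real.sqrt r := Real.sqrt_pos.mpr hr'
  -- `sqrt r ≤ (x + y) ^ 2`
  have h1 : Real.sqrt r ≤ (x + y) ^ 2 := by
    apply Real.sqrt_le_iff.mpr
    refine ⟨by positivity, ?_⟩
    have h2 : x ^ 4 ≤ (x + y) ^ 4 := pow_le_pow_left₀ hx'.le (by linarith) 4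
    have h3 : 0 < y ^ 4 := by positivity
    nlinarith
  have h4 : ((x - y) * (x + y)) * (x + y) ^ 2 ≤ 2 * r := by
    have h5 : ((x - y) * (x + y)) * (x + y) ^ 2 + ((x - y) * (x + y)) * (x - y) ^ 2 = 2 * r := by
      nlinarith
    have h6 : 0 ≤ ((x - y) * (x + y)) * (x - y) ^ 2 := by
      have : 0 ≤ x - y := by linarith
      positivity
    linarith
  have h7 : ((x - y) * (x + y)) * (x + y) ^ 2 ≤ (2 * Real.sqrt r) * (x + y) ^ 2 := by
    nlinarith
  exact le_of_mul_le_mul_right h7 (by positivity)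

theorem size_two {r : ℕ} (hr : 0 < r) {P Q : ℕ × ℕ} (hP : IsSol r P) (hQ : IsSol r Q) (θ : ℝ)
    (h1 : ((Q.1 : ℝ) + Q.2) ≤ ((P.1 : ℝ) + P.2) * Real.exp θ)
    (h2 : ((P.1 : ℝ) + P.2) ≤ ((Q.1 : ℝ) + Q.2) * Real.exp θ) :
    |(dt P Q : ℝ)| ≤ Real.sqrt r * Real.exp θ := by
  obtain ⟨a1, a2⟩ := size_one hr hP
  obtain ⟨b1, b2⟩ := size_one hr hQ
  have he := Real.exp_pos θ
  have hdt : (dt P Q : ℝ) = (((P.1 : ℝ) - P.2) * ((Q.1 : ℝ) + Q.2) -
      ((Q.1 : ℝ) - Q.2) * ((P.1 : ℝ) + P.2)) / 2 := by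
    unfold dt
    push_cast
    ring
  have c1 : ((P.1 : ℝ) - P.2) * ((Q.1 : ℝ) + Q.2) ≤ 2 * Real.sqrt r * Real.exp θ := by
    calc ((P.1 : ℝ) - P.2) * ((Q.1 : ℝ) + Q.2)
        ≤ ((P.1 : ℝ) - P.2) * (((P.1 : ℝ) + P.2) * Real.exp θ) := mul_le_mul_of_nonneg_left h1 a1
      _ = (((P.1 : ℝ) - P.2) * ((P.1 : ℝ) + P.2)) * Real.exp θ := by ring
      _ ≤ 2 * Real.sqrt r * Real.exp θ := mul_le_mul_of_nonneg_right a2 he.le
  have c2 : ((Q.1 : ℝ) - Q.2) * ((P.1 : ℝ) + P.2) ≤ 2 * Real.sqrt r * Real.exp θ := by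
    calc ((Q.1 : ℝ) - Q.2) * ((P.1 : ℝ) + P.2)
        ≤ ((Q.1 : ℝ) - Q.2) * (((Q.1 : ℝ) + Q.2) * Real.exp θ) := mul_le_mul_of_nonneg_left h2 b1
      _ = (((Q.1 : ℝ) - Q.2) * ((Q.1 : ℝ) + Q.2)) * Real.exp θ := by ring
      _ ≤ 2 * Real.sqrt r * Real.exp θ := mul_le_mul_of_nonneg_right b2 he.le
  have d1 : 0 ≤ ((P.1 : ℝ) - P.2) * ((Q.1 : ℝ) + Q.2) := mul_nonneg a1 (by positivity)
  have d2 : 0 ≤ ((Q.1 : ℝ) - Q.2) * ((P.1 : ℝ) + P.2) := mul_nonneg b1 (by positivity)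
  rw [hdt, abs_le]
  constructor <;> linarith

theorem sum_K_off {r : ℕ} (hr : 0 < r) {P Q : ℕ × ℕ} (hP : IsSol r P) (hQ : IsSol r Q)
    (hne : P ≠ Q) (θ : ℝ)
    (h1 : ((Q.1 : ℝ) + Q.2) ≤ ((P.1 : ℝ) + P.2) * Real.exp θ)
    (h2 : ((P.1 : ℝ) + P.2) ≤ ((Q.1 : ℝ) + Q.2) * Real.exp θ) :
    ∑ p ∈ r.primeFactors, (K p (r.factorization p) P Q : ℝ) * Real.log p ≤
      Real.log 4 + Real.log r / 2 + θ := by
  refine (sum_K_le hr hP hQ hne).trans ?_
  have hd : (0 : ℝ) < |(dt P Q : ℝ)| := by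
    have : (dt P Q : ℝ) ≠ 0 := by exact_mod_cast dt_ne hr hP hQ hne
    exact abs_pos.mpr this
  have hr' : (0 : ℝ) < r := by exact_mod_cast hr
  have hs0 : 0 < Real.sqrt r := Real.sqrt_pos.mpr hr'
  calc Real.log (4 * |(dt P Q : ℝ)|) ≤ Real.log (4 * (Real.sqrt r * Real.exp θ)) := by
        apply Real.log_le_log (by positivity)
        exact mul_le_mul_of_nonneg_left (size_two hr hP hQ θ h1 h2) (by norm_num)
    _ = Real.log 4 + Real.log r / 2 + θ := by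
        rw [Real.log_mul (by norm_num) (by positivity), Real.log_mul hs0.ne' (Real.exp_pos θ).ne',
          Real.log_exp, Real.log_sqrt hr'.le]
        ring

/-- the lower bound for a sum over all pairs: general prime -/
theorem low_gen {r p : ℕ} (hr : 0 < r) (hp : p.Prime) (I : Finset (ℕ × ℕ))
    (hI : ∀ P ∈ I, IsSol r P) :
    r.factorization p * I.card ^ 2 ≤ 4 * ∑ P ∈ I, ∑ Q ∈ I, K p (r.factorization p) P Q := by
  refine layer_four I (jv p) (col p) _ (RR p) (card_RR hp) (fun P hP => four_jv_le hr hp (hI P hP)) ?_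
  intro P hP h
  exact col_mem hr hp (hI P hP) h

/-- the lower bound: primes `3 mod 4` which do not divide the greatest common divisors -/
theorem low_three {r p : ℕ} (hr : 0 < r) (hp : p.Prime) (h3 : p % 4 = 3)
    (he0 : 0 < r.factorization p) (I : Finset (ℕ × ℕ))
    (hI : ∀ P ∈ I, IsSol r P) (hj : ∀ P ∈ I, jv p P = 0) :
    r.factorization p * I.card ^ 2 ≤ 2 * ∑ P ∈ I, ∑ Q ∈ I, K p (r.factorization p) P Q := by
  have h1 : ∑ P ∈ I, ∑ Q ∈ I, K p (r.factorization p) P Q =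
      r.factorization p * ∑ P ∈ I, ∑ Q ∈ I, (if col p P = col p Q then 1 else 0) := by
    rw [mul_sum]
    refine sum_congr rfl fun P hP => ?_
    rw [mul_sum]
    refine sum_congr rfl fun Q hQ => ?_
    unfold K
    rw [hj P hP, hj Q hQ]
    split_ifs <;> simp
  have h2 := layer_cs I (col p) (RR p) 2 (card_RR_three hp h3)
    (fun P hP => col_mem hr hp (hI P hP) (by rw [hj P hP]; omega))
  rw [h1]
  calc r.factorization p * I.card ^ 2 ≤ r.factorization p *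
        (2 * ∑ P ∈ I, ∑ Q ∈ I, (if col p P = col p Q then 1 else 0)) := Nat.mul_le_mul_left _ h2
    _ = _ := by ring

/-- the lower bound: all colours equal -/
theorem low_eq {r p : ℕ} (I : Finset (ℕ × ℕ)) (hj : ∀ P ∈ I, jv p P = 0)
    (hc : ∀ P ∈ I, ∀ Q ∈ I, col p P = col p Q) :
    r.factorization p * I.card ^ 2 ≤ ∑ P ∈ I, ∑ Q ∈ I, K p (r.factorization p) P Q := by
  have h1 : ∑ P ∈ I, ∑ Q ∈ I, K p (r.factorization p) P Q =
      ∑ P ∈ I, ∑ Q ∈ I, r.factorization p := by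
    refine sum_congr rfl fun P hP => sum_congr rfl fun Q hQ => ?_
    unfold K
    rw [if_pos (hc P hP Q hQ), hj P hP, hj Q hQ]
    simp
  rw [h1]
  simp only [sum_const, smul_eq_mul]
  apply le_of_eq
  ring

end Pool.Agent.FP
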