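import Mathlib

/-!
# Solutions of `x ^ 4 - y ^ 4 = r` (MP_7dc427_nt): local part
-/

set_option autoImplicit false

namespace Pool.Agent.FP

open Finset

/-- the solutions of `x ^ 4 = y ^ 4 + r` in positive integers -/
def IsSol (r : ℕ) (P : ℕ × ℕ) : Prop := 0 < P.1 ∧ 0 < P.2 ∧ P.1 ^ 4 = P.2 ^ 4 + r

/-- the determinant of two points -/
def dt (P Q : ℕ × ℕ) : ℤ := (P.1 : ℤ) * Q.2 - Q.1 * P.2

/-- exponent of `p` in the greatest common divisor -/
def jv (p : ℕ) (P : ℕ × ℕ) : ℕ := (Nat.gcd P.1 P.2).factorization p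

/-- modulus of the colours -/
def qq (p : ℕ) : ℕ := if p = 2 then 4 else p

/-- the colour at the prime `p` -/
def col (p : ℕ) (P : ℕ × ℕ) : ℕ :=
  (((P.1 / p ^ jv p P : ℕ) : ZMod (qq p)) * ((P.2 / p ^ jv p P : ℕ) : ZMod (qq p))⁻¹).val

/-- the possible colours -/
def RR (p : ℕ) : Finset ℕ := (range (qq p)).filter (fun c : ℕ => (c : ZMod (qq p)) ^ 4 = 1)

/-- agreement exponent -/
def K (p e : ℕ) (P Q : ℕ × ℕ) : ℕ :=
  jv p P + jv p Q + if col p P = col p Q then min (e - 4 * jv p P) (e - 4 * jv p Q) else 0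

theorem core_odd {p : ℕ} (hp : p.Prime) (h2 : p ≠ 2) {f : ℕ} {a b c d : ℤ}
    (h1 : (p : ℤ) ^ f ∣ a ^ 4 - b ^ 4) (h3 : (p : ℤ) ^ f ∣ c ^ 4 - d ^ 4)
    (ha : ¬ (p : ℤ) ∣ a) (hd : ¬ (p : ℤ) ∣ d) (hc : (p : ℤ) ∣ a * d - c * b) :
    (p : ℤ) ^ f ∣ 4 * (a * d - c * b) := by
  have hpz : Prime (p : ℤ) := Nat.prime_iff_prime_int.mp hp
  set A := a * d with hA
  set B := c * b with hB
  have key : (p : ℤ) ^ f ∣ (A - B) * (A ^ 3 + A ^ 2 * B + A * B ^ 2 + B ^ 3) := by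
    have : (A - B) * (A ^ 3 + A ^ 2 * B + A * B ^ 2 + B ^ 3) =
        (a ^ 4 - b ^ 4) * d ^ 4 - b ^ 4 * (c ^ 4 - d ^ 4) := by rw [hA, hB]; ring
    rw [this]
    exact dvd_sub (h1.mul_right _) (h3.mul_left _)
  have hnd : ¬ (p : ℤ) ∣ A ^ 3 + A ^ 2 * B + A * B ^ 2 + B ^ 3 := by
    intro h
    have h5 : (p : ℤ) ∣ 4 * A ^ 3 := by
      have : 4 * A ^ 3 = (A ^ 3 + A ^ 2 * B + A * B ^ 2 + B ^ 3) +
          (A - B) * (3 * A ^ 2 + 2 * A * B + B ^ 2) := by ring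
      rw [this]
      exact dvd_add h (hc.mul_right _)
    rcases hpz.dvd_or_dvd h5 with h6 | h6
    · have h7 : p ∣ 4 := by exact_mod_cast h6
      have h8 : p ∣ 2 ^ 2 := by simpa using h7
      have := (Nat.prime_dvd_prime_iff_eq hp Nat.prime_two).mp (hp.dvd_of_dvd_pow h8)
      exact h2 this
    · have h9 := hpz.dvd_of_dvd_pow h6
      rcases hpz.dvd_or_dvd h9 with h10 | h10
      · exact ha h10
      · exact hd h10
  have hcop : IsCoprime ((p : ℤ) ^ f) (A ^ 3 + A ^ 2 * B + A * B ^ 2 + B ^ 3) :=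
    ((Prime.coprime_iff_not_dvd hpz).mpr hnd).pow_left
  exact (hcop.dvd_of_dvd_mul_right key).mul_left 4

theorem core_two {f : ℕ} {a b c d : ℤ}
    (h1 : (2 : ℤ) ^ f ∣ a ^ 4 - b ^ 4) (h3 : (2 : ℤ) ^ f ∣ c ^ 4 - d ^ 4)
    (ha : ¬ (2 : ℤ) ∣ a) (hd : ¬ (2 : ℤ) ∣ d) (hb : ¬ (2 : ℤ) ∣ b) (hc' : ¬ (2 : ℤ) ∣ c)
    (hc : (4 : ℤ) ∣ a * d - c * b) :
    (2 : ℤ) ^ f ∣ 4 * (a * d - c * b) := by
  set A := a * d with hA
  set B := c * b with hB
  have key : (2 : ℤ) ^ f ∣ (A - B) * ((A + B) * (A ^ 2 + B ^ 2)) := by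
    have : (A - B) * ((A + B) * (A ^ 2 + B ^ 2)) =
        (a ^ 4 - b ^ 4) * d ^ 4 - b ^ 4 * (c ^ 4 - d ^ 4) := by rw [hA, hB]; ring
    rw [this]
    exact dvd_sub (h1.mul_right _) (h3.mul_left _)
  have hoA : A % 2 = 1 := by
    have : ¬ (2 : ℤ) ∣ A := fun h => (Int.prime_two.dvd_or_dvd h).elim ha hd
    omega
  have hoB : B % 2 = 1 := by
    have : ¬ (2 : ℤ) ∣ B := fun h => (Int.prime_two.dvd_or_dvd h).elim hc' hb
    omega
  obtain ⟨u, hu⟩ : ∃ u, A + B = 2 * u := ⟨(A + B) / 2, by omega⟩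
  have hu1 : u % 2 = 1 := by omega
  obtain ⟨s, hs⟩ : ∃ s, A = 2 * s + 1 := ⟨A / 2, by omega⟩
  obtain ⟨t, ht⟩ : ∃ t, B = 2 * t + 1 := ⟨B / 2, by omega⟩
  have hv : A ^ 2 + B ^ 2 = 2 * (2 * (s ^ 2 + s + t ^ 2 + t) + 1) := by rw [hs, ht]; ring
  set v := 2 * (s ^ 2 + s + t ^ 2 + t) + 1 with hvd
  have hv1 : v % 2 = 1 := by omega
  rw [hu, hv] at key
  have key2 : (2 : ℤ) ^ f ∣ (4 * (A - B)) * (u * v) := by
    have : (4 * (A - B)) * (u * v) = (A - B) * (2 * u * (2 * v)) := by ring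
    rw [this]; exact key
  have hnd : ¬ (2 : ℤ) ∣ u * v := fun h => (Int.prime_two.dvd_or_dvd h).elim
    (fun h => by omega) (fun h => by omega)
  have hcop : IsCoprime ((2 : ℤ) ^ f) (u * v) :=
    ((Prime.coprime_iff_not_dvd Int.prime_two).mpr hnd).pow_left
  exact hcop.dvd_of_dvd_mul_right key2

theorem sol_split {r p : ℕ} (hp : p.Prime) {P : ℕ × ℕ} (h : IsSol r P) :
    ∃ a b : ℕ, P.1 = p ^ jv p P * a ∧ P.2 = p ^ jv p P * b ∧ 0 < a ∧ 0 < b ∧
      (P.1 / p ^ jv p P) = a ∧ (P.2 / p ^ jv p P) = b ∧ ¬ (p ∣ a ∧ p ∣ b) := by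
  obtain ⟨h1, h2, h3⟩ := h
  have hg : Nat.gcd P.1 P.2 ≠ 0 := (Nat.gcd_pos_of_pos_left _ h1).ne'
  have hd : p ^ jv p P ∣ Nat.gcd P.1 P.2 := Nat.ordProj_dvd _ _
  obtain ⟨a, ha⟩ := hd.trans (Nat.gcd_dvd_left _ _)
  obtain ⟨b, hb⟩ := hd.trans (Nat.gcd_dvd_right _ _)
  have hpp : 0 < p ^ jv p P := pow_pos hp.pos _
  refine ⟨a, b, ha, hb, ?_, ?_, ?_, ?_, ?_⟩
  · rcases Nat.eq_zero_or_pos a with h | h
    · rw [h] at ha; omega
    · exact h
  · rcases Nat.eq_zero_or_pos b with h | h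
    · rw [h] at hb; omega
    · exact h
  · conv_lhs => rw [ha]
    exact Nat.mul_div_cancel_left _ hpp
  · conv_lhs => rw [hb]
    exact Nat.mul_div_cancel_left _ hpp
  · rintro ⟨ha', hb'⟩
    have h4 : p ^ (jv p P + 1) ∣ Nat.gcd P.1 P.2 := by
      apply Nat.dvd_gcd
      · rw [ha, pow_succ]; exact Nat.mul_dvd_mul_left _ ha'
      · rw [hb, pow_succ]; exact Nat.mul_dvd_mul_left _ hb'
    have h5 := (hp.pow_dvd_iff_le_factorization hg).mp h4
    unfold jv at h5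
    omega

theorem four_jv_le {r p : ℕ} (hr : 0 < r) (hp : p.Prime) {P : ℕ × ℕ} (h : IsSol r P) :
    4 * jv p P ≤ r.factorization p := by
  obtain ⟨a, b, ha, hb, -⟩ := sol_split hp h
  apply (hp.pow_dvd_iff_le_factorization hr.ne').mp
  have h3 := h.2.2
  rw [ha, hb, mul_pow, mul_pow, ← pow_mul, mul_comm (jv p P) 4] at h3
  exact (Nat.dvd_add_right (Dvd.intro _ rfl)).mp (h3 ▸ Dvd.intro _ rfl)

/-- the primitive part modulo the remaining power -/
theorem sol_prim {r p : ℕ} (hr : 0 < r) (hp : p.Prime) {P : ℕ × ℕ} (h : IsSol r P) {a b : ℕ}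
    (ha : P.1 = p ^ jv p P * a) (hb : P.2 = p ^ jv p P * b) :
    (p : ℤ) ^ (r.factorization p - 4 * jv p P) ∣ (a : ℤ) ^ 4 - (b : ℤ) ^ 4 := by
  have h4 := four_jv_le hr hp h
  have h3 := h.2.2
  rw [ha, hb, mul_pow, mul_pow, ← pow_mul] at h3
  have h5 : p ^ r.factorization p ∣ r := Nat.ordProj_dvd _ _
  obtain ⟨c, hc⟩ := h5
  have h6 : p ^ r.factorization p = p ^ (jv p P * 4) * p ^ (r.factorization p - 4 * jv p P) := by
    rw [← pow_add]; congr 1; omega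
  rw [h6, mul_assoc] at hc
  rw [hc, ← mul_add] at h3
  have h7 := Nat.eq_of_mul_eq_mul_left (pow_pos hp.pos _) h3
  refine ⟨c, ?_⟩
  have h8 : (a : ℤ) ^ 4 = (b : ℤ) ^ 4 + (p : ℤ) ^ (r.factorization p - 4 * jv p P) * c := by
    exact_mod_cast h7
  linarith

theorem sol_units {r p : ℕ} (hr : 0 < r) (hp : p.Prime) {P : ℕ × ℕ} (h : IsSol r P) {a b : ℕ}
    (ha : P.1 = p ^ jv p P * a) (hb : P.2 = p ^ jv p P * b) (hn : ¬ (p ∣ a ∧ p ∣ b))
    (hf : 4 * jv p P < r.factorization p) : ¬ p ∣ a ∧ ¬ p ∣ b := by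
  have h1 := sol_prim hr hp h ha hb
  have hpz : Prime (p : ℤ) := Nat.prime_iff_prime_int.mp hp
  have h2 : (p : ℤ) ∣ (a : ℤ) ^ 4 - (b : ℤ) ^ 4 :=
    (dvd_pow_self _ (by omega)).trans h1
  constructor
  · intro h3
    apply hn
    refine ⟨h3, ?_⟩
    have h4 : (p : ℤ) ∣ (b : ℤ) ^ 4 := by
      have h5 : (p : ℤ) ∣ (a : ℤ) ^ 4 := dvd_pow (by exact_mod_cast h3) (by norm_num)
      exact (dvd_sub_right h5).mp h2
    exact_mod_cast hpz.dvd_of_dvd_pow h4
  · intro h3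
    apply hn
    refine ⟨?_, h3⟩
    have h4 : (p : ℤ) ∣ (a : ℤ) ^ 4 := by
      have h5 : (p : ℤ) ∣ (b : ℤ) ^ 4 := dvd_pow (by exact_mod_cast h3) (by norm_num)
      exact (dvd_sub_left h5).mp h2
    exact_mod_cast hpz.dvd_of_dvd_pow h4

theorem qq_pos {p : ℕ} (hp : p.Prime) : 0 < qq p := by
  unfold qq; split_ifs
  · norm_num
  · exact hp.pos

theorem cop_qq {p : ℕ} (hp : p.Prime) {a : ℕ} (h : ¬ p ∣ a) : a.Coprime (qq p) := by
  unfold qq
  split_ifs with h2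
  · subst h2
    have : Nat.Coprime a 2 := ((Nat.Prime.coprime_iff_not_dvd hp).mpr h).symm
    exact Nat.Coprime.pow_right 2 this
  · exact ((Nat.Prime.coprime_iff_not_dvd hp).mpr h).symm

theorem K_dvd {r p : ℕ} (hr : 0 < r) (hp : p.Prime) {P Q : ℕ × ℕ} (hP : IsSol r P)
    (hQ : IsSol r Q) : (p : ℤ) ^ K p (r.factorization p) P Q ∣ 4 * dt P Q := by
  obtain ⟨a, b, ha, hb, ha0, hb0, ha1, hb1, hab⟩ := sol_split hp hP
  obtain ⟨c, d, hc, hd, hc0, hd0, hc1, hd1, hcd⟩ := sol_split hp hQ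
  have hdt : 4 * dt P Q = (p : ℤ) ^ (jv p P + jv p Q) * (4 * ((a : ℤ) * d - c * b)) := by
    unfold dt
    rw [ha, hb, hc, hd, pow_add]
    push_cast
    ring
  have hK : (p : ℤ) ^ K p (r.factorization p) P Q = (p : ℤ) ^ (jv p P + jv p Q) *
      (p : ℤ) ^ (if col p P = col p Q then
        min (r.factorization p - 4 * jv p P) (r.factorization p - 4 * jv p Q) else 0) := by
    unfold K; rw [← pow_add]
  rw [hdt, hK]
  apply mul_dvd_mul_left
  by_cases hcol : col p P = col p Q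
  swap
  · rw [if_neg hcol, pow_zero]; exact one_dvd _
  rw [if_pos hcol]
  by_cases hm : min (r.factorization p - 4 * jv p P) (r.factorization p - 4 * jv p Q) = 0
  · rw [hm, pow_zero]; exact one_dvd _
  have hfP : 4 * jv p P < r.factorization p := by omega
  have hfQ : 4 * jv p Q < r.factorization p := by omega
  obtain ⟨na, nb⟩ := sol_units hr hp hP ha hb hab hfP
  obtain ⟨nc, nd⟩ := sol_units hr hp hQ hc hd hcd hfQ
  have : NeZero (qq p) := ⟨(qq_pos hp).ne'⟩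
  unfold col at hcol
  have hcol2 := ZMod.val_injective _ hcol
  rw [ha1, hb1, hc1, hd1] at hcol2
  have hbu := ZMod.coe_mul_inv_eq_one b (cop_qq hp nb)
  have hdu := ZMod.coe_mul_inv_eq_one d (cop_qq hp nd)
  have hz : ((a : ZMod (qq p)) * d - c * b) = 0 := by
    have e1 : (a : ZMod (qq p)) * d = (a * (b : ZMod (qq p))⁻¹) * b * d := by
      rw [mul_assoc (a : ZMod (qq p)), mul_comm ((b : ZMod (qq p))⁻¹), hbu, mul_one]
    rw [e1, hcol2]
    have e2 : (c * (d : ZMod (qq p))⁻¹) * b * d = c * b * (d * (d : ZMod (qq p))⁻¹) := by ring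
    rw [e2, hdu, mul_one, sub_self]
  have hz2 : ((qq p : ℕ) : ℤ) ∣ (a : ℤ) * d - c * b := by
    rw [← ZMod.intCast_zmod_eq_zero_iff_dvd]
    push_cast
    exact hz
  have g1 : (p : ℤ) ^ min (r.factorization p - 4 * jv p P) (r.factorization p - 4 * jv p Q) ∣
      (a : ℤ) ^ 4 - (b : ℤ) ^ 4 :=
    (pow_dvd_pow _ (min_le_left _ _)).trans (sol_prim hr hp hP ha hb)
  have g2 : (p : ℤ) ^ min (r.factorization p - 4 * jv p P) (r.factorization p - 4 * jv p Q) ∣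
      (c : ℤ) ^ 4 - (d : ℤ) ^ 4 :=
    (pow_dvd_pow _ (min_le_right _ _)).trans (sol_prim hr hp hQ hc hd)
  have na' : ¬ (p : ℤ) ∣ a := fun h => na (by exact_mod_cast h)
  have nb' : ¬ (p : ℤ) ∣ b := fun h => nb (by exact_mod_cast h)
  have nc' : ¬ (p : ℤ) ∣ c := fun h => nc (by exact_mod_cast h)
  have nd' : ¬ (p : ℤ) ∣ d := fun h => nd (by exact_mod_cast h)
  by_cases h2 : p = 2
  · subst h2
    have : qq 2 = 4 := rfl
    rw [this] at hz2
    exact core_two g1 g2 na' nd' nb' nc' (by exact_mod_cast hz2)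
  · have : qq p = p := by unfold qq; rw [if_neg h2]
    rw [this] at hz2
    exact core_odd hp h2 g1 g2 na' nd' hz2

theorem col_mem {r p : ℕ} (hr : 0 < r) (hp : p.Prime) {P : ℕ × ℕ} (hP : IsSol r P)
    (hf : 4 * jv p P < r.factorization p) : col p P ∈ RR p := by
  obtain ⟨a, b, ha, hb, ha0, hb0, ha1, hb1, hab⟩ := sol_split hp hP
  obtain ⟨na, nb⟩ := sol_units hr hp hP ha hb hab hf
  have : NeZero (qq p) := ⟨(qq_pos hp).ne'⟩
  unfold RR
  rw [mem_filter, mem_range]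
  unfold col
  refine ⟨ZMod.val_lt _, ?_⟩
  rw [ZMod.natCast_zmod_val, ha1, hb1, mul_pow]
  have hbu := ZMod.coe_mul_inv_eq_one b (cop_qq hp nb)
  have h4 : (a : ZMod (qq p)) ^ 4 = (b : ZMod (qq p)) ^ 4 := by
    have hz2 : ((qq p : ℕ) : ℤ) ∣ (a : ℤ) ^ 4 - (b : ℤ) ^ 4 := by
      by_cases h2 : p = 2
      · subst h2
        have h1 : (a : ℤ) % 2 = 1 := by omega
        have h3 : (b : ℤ) % 2 = 1 := by omega
        obtain ⟨s, hs⟩ : ∃ s : ℤ, (a : ℤ) = 2 * s + 1 := ⟨(a : ℤ) / 2, by omega⟩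
        obtain ⟨t, ht⟩ : ∃ t : ℤ, (b : ℤ) = 2 * t + 1 := ⟨(b : ℤ) / 2, by omega⟩
        rw [hs, ht]
        refine ⟨4 * s ^ 4 + 8 * s ^ 3 + 6 * s ^ 2 + 2 * s - (4 * t ^ 4 + 8 * t ^ 3 + 6 * t ^ 2 + 2 * t), ?_⟩
        have : ((qq 2 : ℕ) : ℤ) = 4 := rfl
        rw [this]
        ring
      · have : qq p = p := by unfold qq; rw [if_neg h2]
        rw [this]
        exact (dvd_pow_self _ (by omega)).trans (sol_prim hr hp hP ha hb)
    rw [← ZMod.intCast_zmod_eq_zero_iff_dvd] at hz2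
    push_cast at hz2
    exact sub_eq_zero.mp hz2
  rw [h4, ← mul_pow, hbu, one_pow]

theorem card_RR {p : ℕ} (hp : p.Prime) : (RR p).card ≤ 4 := by
  by_cases h2 : p = 2
  · subst h2; decide
  have : Fact p.Prime := ⟨hp⟩
  have hq : qq p = p := by unfold qq; rw [if_neg h2]
  unfold RR
  rw [hq]
  calc ((range p).filter (fun c : ℕ => (c : ZMod p) ^ 4 = 1)).card
      ≤ (Polynomial.nthRoots 4 (1 : ZMod p)).toFinset.card := by
        apply card_le_card_of_injOn (fun c : ℕ => (c : ZMod p))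
        · intro c hc
          rw [mem_coe, mem_filter] at hc
          rw [mem_coe, Multiset.mem_toFinset, Polynomial.mem_nthRoots (by norm_num)]
          exact hc.2
        · intro c hc d hd hcd
          rw [mem_coe, mem_filter, mem_range] at hc hd
          have := congrArg ZMod.val hcd
          simp only at this
          rwa [ZMod.val_natCast_of_lt hc.1, ZMod.val_natCast_of_lt hd.1] at this
    _ ≤ (Polynomial.nthRoots 4 (1 : ZMod p)).card := Multiset.toFinset_card_le _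
    _ ≤ 4 := Polynomial.card_nthRoots 4 1

theorem card_RR_three {p : ℕ} (hp : p.Prime) (h3 : p % 4 = 3) : (RR p).card ≤ 2 := by
  have h2 : p ≠ 2 := by rintro rfl; omega
  have : Fact p.Prime := ⟨hp⟩
  have hq : qq p = p := by unfold qq; rw [if_neg h2]
  unfold RR
  rw [hq]
  calc ((range p).filter (fun c : ℕ => (c : ZMod p) ^ 4 = 1)).card
      ≤ (Polynomial.nthRoots 2 (1 : ZMod p)).toFinset.card := by
        apply card_le_card_of_injOn (fun c : ℕ => (c : ZMod p))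
        · intro c hc
          rw [mem_coe, mem_filter] at hc
          rw [mem_coe, Multiset.mem_toFinset, Polynomial.mem_nthRoots (by norm_num)]
          have h5 : ((c : ZMod p) ^ 2 - 1) * ((c : ZMod p) ^ 2 + 1) = 0 := by
            have := hc.2
            linear_combination this
          rcases mul_eq_zero.mp h5 with h6 | h6
          · exact sub_eq_zero.mp h6
          · exfalso
            have h7 : IsSquare (-1 : ZMod p) := ⟨c, by linear_combination -h6⟩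
            exact (ZMod.exists_sq_eq_neg_one_iff.mp h7) h3
        · intro c hc d hd hcd
          rw [mem_coe, mem_filter, mem_range] at hc hd
          have := congrArg ZMod.val hcd
          simp only at this
          rwa [ZMod.val_natCast_of_lt hc.1, ZMod.val_natCast_of_lt hd.1] at this
    _ ≤ (Polynomial.nthRoots 2 (1 : ZMod p)).card := Multiset.toFinset_card_le _
    _ ≤ 2 := Polynomial.card_nthRoots 2 1

theorem dt_ne {r : ℕ} (hr : 0 < r) {P Q : ℕ × ℕ} (hP : IsSol r P) (hQ : IsSol r Q)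
    (hne : P ≠ Q) : dt P Q ≠ 0 := by
  intro h
  apply hne
  obtain ⟨hx, hy, hxy⟩ := hP
  obtain ⟨hu, hv, huv⟩ := hQ
  obtain ⟨x, y⟩ := P
  obtain ⟨u, v⟩ := Q
  simp only at hx hy hxy hu hv huv
  unfold dt at h
  simp only at h
  have h1 : x * v = u * y := by
    have : (x : ℤ) * v = u * y := by linarith
    exact_mod_cast this
  -- x^4 v^4 = u^4 y^4
  have h2 : (y ^ 4 + r) * v ^ 4 = (v ^ 4 + r) * y ^ 4 := by
    rw [← hxy, ← huv, ← mul_pow, h1, mul_pow]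
  have h3 : r * v ^ 4 = r * y ^ 4 := by nlinarith
  have h4 : v ^ 4 = y ^ 4 := Nat.eq_of_mul_eq_mul_left hr h3
  have h5 : v = y := Nat.pow_left_injective (by norm_num : 4 ≠ 0) h4
  subst h5
  have h6 : x = u := Nat.eq_of_mul_eq_mul_right hv h1
  rw [h6]

end Pool.Agent.FP
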